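import Mathlib

set_option autoImplicit false

namespace Pool.Agent.Results.MP_ec2b5b_lc.NoConstant

open Finset

/-- A (finitely supported) distribution on the nonnegative reals: the value `val i` has
probability `prob i`. -/
structure Dist where
  k : ℕ
  val : Fin k → ℝ
  prob : Fin k → ℝ
  val_nonneg : ∀ i, 0 ≤ val i
  prob_nonneg : ∀ i, 0 ≤ prob i
  sum_one : ∑ i, prob i = 1

/-- The options of the buyer of type `(v, c)` facing the menu `M`, as pairs
(utility, payment): declining gives utility `c` and payment `0`; a lottery `(x, p)` in the menu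
gives utility `v * x - p` and payment `p`. -/
def options (M : Set (ℝ × ℝ)) (v c : ℝ) : Set (ℝ × ℝ) :=
  {(c, 0)} ∪ {o | ∃ m ∈ M, o = (v * m.1 - m.2, m.2)}

/-- `t` is the payment made by the buyer of type `(v, c)`: she takes a utility-maximizing
option, ties broken in the seller's favour. -/
def IsPayment (M : Set (ℝ × ℝ)) (v c t : ℝ) : Prop :=
  ∃ o ∈ options M v c, o.2 = t ∧ (∀ o' ∈ options M v c, o'.1 ≤ o.1) ∧
    ∀ o' ∈ options M v c, o'.1 = o.1 → o'.2 ≤ t

/-- The set of revenues of menus of lotteries `(x, p)` with `x` in `[0, 1]`. -/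
def revenues (F G : Dist) : Set ℝ :=
  {r | ∃ (M : Set (ℝ × ℝ)) (t : Fin F.k → Fin G.k → ℝ),
    (∀ m ∈ M, 0 ≤ m.1 ∧ m.1 ≤ 1) ∧ (∀ i j, IsPayment M (F.val i) (G.val j) (t i j)) ∧
    r = ∑ i, ∑ j, F.prob i * G.prob j * t i j}

/-- The optimal revenue: the supremum of the revenues over all menus. -/
noncomputable def OPT (F G : Dist) : ℝ := sSup (revenues F G)

/-- The revenue `P * Pr[v - P ≥ c]` of the posted price `P`. -/
noncomputable def postedRevenue (F G : Dist) (P : ℝ) : ℝ :=
  P * ∑ i, ∑ j, if G.val j ≤ F.val i - P then F.prob i * G.prob j else 0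

/-- The best posted-price revenue. -/
noncomputable def PP (F G : Dist) : ℝ := ⨆ P : {P : ℝ // 0 ≤ P}, postedRevenue F G P.1

theorem payment_le {M : Set (ℝ × ℝ)} (hM : ∀ m ∈ M, 0 ≤ m.1 ∧ m.1 ≤ 1) {v c t : ℝ}
    (hv : 0 ≤ v) (hc : 0 ≤ c) (h : IsPayment M v c t) : t ≤ v := by
  obtain ⟨o, ho, rfl, hmax, -⟩ := h
  have h1 : c ≤ o.1 := hmax (c, 0) (Or.inl rfl)
  rcases ho with ho | ⟨m, hm, ho⟩
  · rw [Set.mem_singleton_iff] at ho
    rw [ho]
    exact hv
  · rw [ho] at h1 ⊢
    have h2 := hM m hm
    simp only at h1 ⊢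
    nlinarith

theorem bddAbove_revenues (F G : Dist) : BddAbove (revenues F G) := by
  refine ⟨∑ i, ∑ j, F.prob i * G.prob j * F.val i, ?_⟩
  rintro r ⟨M, t, hM, ht, rfl⟩
  refine Finset.sum_le_sum fun i _ => Finset.sum_le_sum fun j _ => ?_
  exact mul_le_mul_of_nonneg_left
    (payment_le hM (F.val_nonneg i) (G.val_nonneg j) (ht i j))
    (mul_nonneg (F.prob_nonneg i) (G.prob_nonneg j))

/-! ### The example -/

/-- The scale `a i = 2 ^ (i + 1)`. -/
noncomputable def a (i : ℕ) : ℝ := 2 ^ (i + 1)

theorem a_pos (i : ℕ) : 0 < a i := by unfold a; positivity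

theorem a_ge (i : ℕ) : 2 ≤ a i := by
  unfold a
  have : (1 : ℝ) ≤ 2 ^ i := one_le_pow₀ (by norm_num)
  rw [pow_succ]
  linarith

theorem a_succ (i : ℕ) : a (i + 1) = 2 * a i := by unfold a; ring

theorem a_mono {i j : ℕ} (h : i ≤ j) : a i ≤ a j := by
  unfold a
  exact pow_le_pow_right₀ (by norm_num) (by omega)

theorem a_double {i j : ℕ} (h : i < j) : 2 * a i ≤ a j := by
  rw [← a_succ]
  exact a_mono h

/-- Item values. -/
noncomputable def vv (i : ℕ) : ℝ := a i ^ 2

/-- Outside options. -/
noncomputable def cc (i : ℕ) : ℝ := a i ^ 2 - a i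

theorem cc_nonneg (i : ℕ) : 0 ≤ cc i := by
  unfold cc
  nlinarith [a_ge i]

theorem vv_lt_cc {i j : ℕ} (h : i < j) : vv i < cc j := by
  unfold vv cc
  have h1 := a_double h
  have h2 := a_ge i
  nlinarith

theorem cc_lt_cc {i j : ℕ} (h : i < j) : cc i < cc j := by
  have h1 := vv_lt_cc h
  have : cc i ≤ vv i := by
    unfold cc vv
    linarith [a_pos i]
  linarith

/-- Unnormalised cumulative distribution of the outside option. -/
noncomputable def R : ℕ → ℝ
  | 0 => 1
  | i + 1 => R i * 4 ^ (i + 2)

/-- The previous value of `R`. -/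
noncomputable def R' : ℕ → ℝ
  | 0 => 0
  | i + 1 => R i

theorem R_pos : ∀ i, 0 < R i
  | 0 => one_pos
  | i + 1 => by
    have := R_pos i
    unfold R
    positivity

theorem R'_nonneg : ∀ i, 0 ≤ R' i
  | 0 => le_refl _
  | i + 1 => (R_pos i).le

theorem R'_le : ∀ i, R' i * 4 ^ (i + 1) ≤ R i
  | 0 => by simp [R', R]
  | i + 1 => by simp [R', R]

theorem R'_le_R (i : ℕ) : R' i ≤ R i := by
  have h := R'_le i
  have h1 : (1 : ℝ) ≤ 4 ^ (i + 1) := one_le_pow₀ (by norm_num)
  nlinarith [R'_nonneg i]

theorem sum_R (i : ℕ) : ∑ j ∈ range (i + 1), (R j - R' j) = R i := by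
  induction i with
  | zero => simp [R, R']
  | succ i ih =>
    rw [Finset.sum_range_succ, ih]
    simp [R']

theorem sum_R' (i : ℕ) : ∑ j ∈ range i, (R j - R' j) = R' i := by
  cases i with
  | zero => simp [R']
  | succ i => rw [sum_R]; rfl

/-- The outside option distribution. -/
noncomputable def GG (n : ℕ) : Dist where
  k := n + 1
  val i := cc i
  prob i := (R i - R' i) / R n
  val_nonneg i := cc_nonneg i
  prob_nonneg i := div_nonneg (sub_nonneg.2 (R'_le_R i)) (R_pos n).le
  sum_one := by
    rw [← Finset.sum_div, Fin.sum_univ_eq_sum_range (fun i => R i - R' i), sum_R,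
      div_self (R_pos n).ne']

/-- The normalising constant. -/
noncomputable def SS (n : ℕ) : ℝ := ∑ i ∈ range (n + 1), 1 / (a i * R i)

theorem SS_pos (n : ℕ) : 0 < SS n := by
  unfold SS
  refine Finset.sum_pos (fun i _ => ?_) ⟨0, by simp⟩
  have := a_pos i
  have := R_pos i
  positivity

/-- The value distribution. -/
noncomputable def FF (n : ℕ) : Dist where
  k := n + 1
  val i := vv i
  prob i := 1 / (a i * R i) / SS n
  val_nonneg i := by unfold vv; positivity
  prob_nonneg i := by
    have := a_pos i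
    have := R_pos i
    have := SS_pos n
    positivity
  sum_one := by
    rw [← Finset.sum_div, Fin.sum_univ_eq_sum_range (fun i => 1 / (a i * R i))]
    exact div_self (SS_pos n).ne'

/-- The menu. -/
def menu (n : ℕ) : Set (ℝ × ℝ) := {m | ∃ i ≤ n, m = (1 - 1 / (2 * a i), a i / 2)}

/-- The payments. -/
noncomputable def pay (i j : ℕ) : ℝ := if j ≤ i then a i / 2 else 0

theorem util_eq (i : ℕ) : vv i * (1 - 1 / (2 * a i)) - a i / 2 = cc i := by
  have := a_pos i
  unfold vv cc
  field_simp
  ring

theorem util_le (i l : ℕ) : vv i * (1 - 1 / (2 * a l)) - a l / 2 ≤ cc i := by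
  have h1 := a_pos i
  have h2 := a_pos l
  have h3 : cc i - (vv i * (1 - 1 / (2 * a l)) - a l / 2) = (a i - a l) ^ 2 / (2 * a l) := by
    unfold vv cc
    field_simp
    ring
  have h4 : 0 ≤ (a i - a l) ^ 2 / (2 * a l) := by positivity
  linarith

theorem util_eq_iff {i l : ℕ} (h : vv i * (1 - 1 / (2 * a l)) - a l / 2 = cc i) :
    a l = a i := by
  have h1 := a_pos i
  have h2 := a_pos l
  have h3 : cc i - (vv i * (1 - 1 / (2 * a l)) - a l / 2) = (a i - a l) ^ 2 / (2 * a l) := by
    unfold vv cc
    field_simp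
    ring
  rw [h, sub_self] at h3
  have h4 : (a i - a l) ^ 2 = 0 := by
    rcases div_eq_zero_iff.1 h3.symm with h5 | h5
    · exact h5
    · linarith
  have h5 := pow_eq_zero_iff (two_ne_zero) |>.1 h4
  linarith

theorem isPayment (n i j : ℕ) (hi : i ≤ n) : IsPayment (menu n) (vv i) (cc j) (pay i j) := by
  unfold pay
  split_ifs with hji
  · have hcc : cc j ≤ cc i := by
      rcases hji.eq_or_lt with h | h
      · rw [h]
      · exact (cc_lt_cc h).le
    refine ⟨(vv i * (1 - 1 / (2 * a i)) - a i / 2, a i / 2),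
      Or.inr ⟨_, ⟨i, hi, rfl⟩, rfl⟩, rfl, ?_, ?_⟩
    · rintro o' (ho | ⟨m, ⟨l, hl, rfl⟩, ho⟩)
      · rw [Set.mem_singleton_iff] at ho
        rw [ho, util_eq]
        exact hcc
      · rw [ho, util_eq]
        exact util_le i l
    · rintro o' (ho | ⟨m, ⟨l, hl, rfl⟩, ho⟩) h
      · rw [Set.mem_singleton_iff] at ho
        rw [ho]
        have := a_pos i
        positivity
      · rw [ho, util_eq] at h
        rw [ho]
        have := util_eq_iff h
        simp only
        rw [this]
  · have hlt : cc i < cc j := cc_lt_cc (by omega)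
    refine ⟨(cc j, 0), Or.inl rfl, rfl, ?_, ?_⟩
    · rintro o' (ho | ⟨m, ⟨l, hl, rfl⟩, ho⟩)
      · rw [Set.mem_singleton_iff] at ho
        rw [ho]
      · rw [ho]
        exact (util_le i l).trans hlt.le
    · rintro o' (ho | ⟨m, ⟨l, hl, rfl⟩, ho⟩) h
      · rw [Set.mem_singleton_iff] at ho
        rw [ho]
      · rw [ho] at h
        have := util_le i l
        simp only at h
        linarith

/-- The common scale of all revenues. -/
noncomputable def DD (n : ℕ) : ℝ := 1 / (SS n * R n)

theorem DD_pos (n : ℕ) : 0 < DD n := by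
  have := SS_pos n
  have := R_pos n
  unfold DD
  positivity

theorem menu_revenue (n : ℕ) :
    ∑ i : Fin (n + 1), ∑ j : Fin (n + 1), (FF n).prob i * (GG n).prob j * pay i j =
      DD n * ((n + 1) / 2) := by
  have h1 : ∀ i : Fin (n + 1), ∑ j : Fin (n + 1), (FF n).prob i * (GG n).prob j * pay i j =
      DD n * (1 / 2) := by
    intro i
    have hj : ∑ j : Fin (n + 1), (GG n).prob j * pay i j = a i / 2 * (R i / R n) := by
      have h2 : ∀ j : Fin (n + 1), (GG n).prob j * pay i j =
          a i / 2 / R n * (if (j : ℕ) ≤ i then R j - R' j else 0) := by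
        intro j
        show (R j - R' j) / R n * pay i j = _
        unfold pay
        split_ifs
        · ring
        · simp
      rw [Finset.sum_congr rfl fun j _ => h2 j, ← Finset.mul_sum,
        Fin.sum_univ_eq_sum_range (fun j => if j ≤ (i : ℕ) then R j - R' j else 0),
        ← Finset.sum_filter]
      have h3 : (range (n + 1)).filter (fun j => j ≤ (i : ℕ)) = range (i + 1) := by
        ext j
        simp only [Finset.mem_filter, Finset.mem_range]
        have := i.2
        omega
      rw [h3, sum_R]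
      ring
    have h4 : ∑ j : Fin (n + 1), (FF n).prob i * (GG n).prob j * pay i j =
        (FF n).prob i * ∑ j : Fin (n + 1), (GG n).prob j * pay i j := by
      rw [Finset.mul_sum]
      exact Finset.sum_congr rfl fun j _ => by ring
    rw [h4, hj]
    show 1 / (a i * R i) / SS n * (a i / 2 * (R i / R n)) = DD n * (1 / 2)
    have e1 := (a_pos i).ne'
    have e2 := (R_pos i).ne'
    have e3 := (R_pos n).ne'
    have e4 := (SS_pos n).ne'
    unfold DD
    field_simp
  rw [Finset.sum_congr rfl fun i _ => h1 i, Finset.sum_const, Finset.card_univ,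
    Fintype.card_fin, nsmul_eq_mul]
  push_cast
  ring

theorem le_OPT (n : ℕ) : DD n * ((n + 1) / 2) ≤ OPT (FF n) (GG n) := by
  refine le_csSup (bddAbove_revenues _ _) ⟨menu n, fun i j => pay i j, ?_, ?_, ?_⟩
  · rintro m ⟨i, -, rfl⟩
    have h := a_ge i
    have h1 : 0 < 2 * a i := by linarith
    have h2 : 1 / (2 * a i) ≤ 1 := by
      rw [div_le_one h1]
      linarith
    have h3 : 0 < 1 / (2 * a i) := by positivity
    constructor
    · simp only
      linarith
    · simp only
      linarith
  · intro i j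
    exact isPayment n i j (Nat.lt_succ_iff.1 i.2)
  · exact (menu_revenue n).symm

/-- The geometric sum over the scales above `P`. -/
theorem geom_bound (P : ℝ) (hP : 0 ≤ P) (n : ℕ) :
    ∑ i ∈ range n, (if P ≤ a i then P / a i else 0) ≤ 2 := by
  have key : ∀ n, (∑ i ∈ range n, (if P ≤ a i then P / a i else 0) = 0) ∨
      ∑ i ∈ range n, (if P ≤ a i then P / a i else 0) ≤ 2 - P / 2 ^ n := by
    intro n
    induction n with
    | zero => left; simp
    | succ n ih =>
      rw [Finset.sum_range_succ]
      by_cases h : P ≤ a n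
      · right
        rw [if_pos h]
        have e : P / a n = P / 2 ^ (n + 1) := rfl
        have e2 : P / 2 ^ n = 2 * (P / 2 ^ (n + 1)) := by
          rw [pow_succ]
          field_simp
        rcases ih with ih | ih
        · rw [ih, e]
          have h2 : P / 2 ^ (n + 1) ≤ 1 := by
            rw [div_le_one (by positivity)]
            exact h
          linarith
        · rw [e]
          rw [e2] at ih
          linarith
      · left
        rw [if_neg h, add_zero]
        refine Finset.sum_eq_zero fun i hi => ?_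
        rw [if_neg]
        intro h2
        exact h (h2.trans (a_mono (Finset.mem_range.1 hi).le))
  rcases key n with h | h
  · rw [h]
    norm_num
  · have : 0 ≤ P / 2 ^ n := by positivity
    linarith

theorem half_sum (n : ℕ) : ∑ i ∈ range n, (1 : ℝ) / 2 ^ (i + 1) ≤ 1 := by
  have : ∑ i ∈ range n, (1 : ℝ) / 2 ^ (i + 1) = 1 - 1 / 2 ^ n := by
    induction n with
    | zero => simp
    | succ n ih =>
      rw [Finset.sum_range_succ, ih, pow_succ]
      field_simp
      ring
  rw [this]
  have : (0 : ℝ) < 1 / 2 ^ n := by positivity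
  linarith

/-- Probability mass of the outside options that accept the price `P` at value `vv i`. -/
noncomputable def T (n : ℕ) (P : ℝ) (i : ℕ) : ℝ :=
  ∑ j ∈ range (n + 1), if cc j ≤ vv i - P then R j - R' j else 0

theorem T_le {n : ℕ} {P : ℝ} (hP : 0 ≤ P) {i : ℕ} : T n P i ≤ R i := by
  unfold T
  rw [← sum_R i, ← Finset.sum_filter]
  refine Finset.sum_le_sum_of_subset_of_nonneg ?_ fun j _ _ => sub_nonneg.2 (R'_le_R j)
  intro j hj
  rw [Finset.mem_filter] at hj
  rw [Finset.mem_range]
  by_contra h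
  have := vv_lt_cc (i := i) (j := j) (by omega)
  linarith [hj.2]

theorem T_le' {n : ℕ} {P : ℝ} {i : ℕ} (h : a i < P) : T n P i ≤ R' i := by
  unfold T
  rw [← sum_R' i, ← Finset.sum_filter]
  refine Finset.sum_le_sum_of_subset_of_nonneg ?_ fun j _ _ => sub_nonneg.2 (R'_le_R j)
  intro j hj
  rw [Finset.mem_filter] at hj
  rw [Finset.mem_range]
  by_contra h'
  have h1 : cc i ≤ cc j := by
    rcases (not_lt.1 h').eq_or_lt with h2 | h2
    · rw [h2]
    · exact (cc_lt_cc h2).le
  have h2 : cc i = vv i - a i := rfl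
  linarith [hj.2]

theorem T_eq_zero {n : ℕ} {P : ℝ} {i : ℕ} (h : vv i < P) : T n P i = 0 := by
  unfold T
  refine Finset.sum_eq_zero fun j _ => ?_
  rw [if_neg]
  intro h2
  linarith [cc_nonneg j]

theorem term_le {n : ℕ} {P : ℝ} (hP : 0 ≤ P) {i : ℕ} :
    P * T n P i / (a i * R i) ≤ (if P ≤ a i then P / a i else 0) + 1 / 2 ^ (i + 1) := by
  have ha := a_pos i
  have hR := R_pos i
  split_ifs with h
  · have h1 : P * T n P i / (a i * R i) ≤ P / a i := by
      rw [div_le_div_iff₀ (by positivity) ha]
      have := T_le (n := n) (i := i) hP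
      have : P * T n P i ≤ P * R i := mul_le_mul_of_nonneg_left this hP
      nlinarith
    have h2 : (0 : ℝ) < 1 / 2 ^ (i + 1) := by positivity
    linarith
  · rw [zero_add]
    rw [not_le] at h
    by_cases h2 : vv i < P
    · rw [T_eq_zero h2]
      simp
    · rw [not_lt] at h2
      have h3 := T_le' (n := n) h
      have h4 := R'_le i
      have h5 : P * T n P i ≤ a i ^ 2 * R' i :=
        calc P * T n P i ≤ P * R' i := mul_le_mul_of_nonneg_left h3 hP
          _ ≤ a i ^ 2 * R' i := mul_le_mul_of_nonneg_right h2 (R'_nonneg i)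
      rw [div_le_div_iff₀ (by positivity) (by positivity), one_mul]
      have h6 : (4 : ℝ) ^ (i + 1) = a i * 2 ^ (i + 1) := by
        unfold a
        rw [← mul_pow]
        norm_num
      calc P * T n P i * 2 ^ (i + 1) ≤ a i ^ 2 * R' i * 2 ^ (i + 1) :=
            mul_le_mul_of_nonneg_right h5 (by positivity)
        _ = a i * (R' i * 4 ^ (i + 1)) := by rw [h6]; ring
        _ ≤ a i * R i := mul_le_mul_of_nonneg_left h4 ha.le

theorem posted_le (n : ℕ) (P : ℝ) (hP : 0 ≤ P) :
    postedRevenue (FF n) (GG n) P ≤ DD n * 3 := by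
  have h1 : postedRevenue (FF n) (GG n) P =
      DD n * ∑ i ∈ range (n + 1), P * T n P i / (a i * R i) := by
    have h2 : ∀ i : Fin (n + 1), (∑ j : Fin (n + 1), if (GG n).val j ≤ (FF n).val i - P then
        (FF n).prob i * (GG n).prob j else 0) = DD n * (T n P i / (a i * R i)) := by
      intro i
      have h3 : ∀ j : Fin (n + 1), (if (GG n).val j ≤ (FF n).val i - P then
          (FF n).prob i * (GG n).prob j else 0) =
          DD n / (a i * R i) * (if cc j ≤ vv i - P then R j - R' j else 0) := by
        intro j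
        show (if cc j ≤ vv i - P then 1 / (a i * R i) / SS n * ((R j - R' j) / R n) else 0) = _
        split_ifs
        · have e1 := (a_pos i).ne'
          have e2 := (R_pos i).ne'
          have e3 := (R_pos n).ne'
          have e4 := (SS_pos n).ne'
          unfold DD
          field_simp
        · simp
      rw [Finset.sum_congr rfl fun j _ => h3 j, ← Finset.mul_sum,
        Fin.sum_univ_eq_sum_range (fun j => if cc j ≤ vv i - P then R j - R' j else 0)]
      show DD n / (a i * R i) * T n P i = _
      ring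
    unfold postedRevenue
    show P * (∑ i : Fin (n + 1), ∑ j : Fin (n + 1), if (GG n).val j ≤ (FF n).val i - P then
        (FF n).prob i * (GG n).prob j else 0) = _
    rw [Finset.sum_congr rfl fun i _ => h2 i,
      Fin.sum_univ_eq_sum_range (fun i => DD n * (T n P i / (a i * R i))), Finset.mul_sum,
      Finset.mul_sum]
    exact Finset.sum_congr rfl fun i _ => by ring
  rw [h1]
  refine mul_le_mul_of_nonneg_left ?_ (DD_pos n).le
  calc ∑ i ∈ range (n + 1), P * T n P i / (a i * R i)
      ≤ ∑ i ∈ range (n + 1), ((if P ≤ a i then P / a i else 0) + 1 / 2 ^ (i + 1)) :=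
        Finset.sum_le_sum fun i _ => term_le hP
    _ ≤ 3 := by
      rw [Finset.sum_add_distrib]
      have := geom_bound P hP (n + 1)
      have := half_sum (n + 1)
      linarith

theorem PP_le (n : ℕ) : PP (FF n) (GG n) ≤ DD n * 3 :=
  haveI : Nonempty {P : ℝ // 0 ≤ P} := ⟨⟨0, le_refl _⟩⟩
  ciSup_le fun P => posted_le n P.1 P.2

/-- Posted pricing is not a constant-factor approximation with private exclusive outside
options. -/
theorem result : ∀ C : ℝ, 1 ≤ C → ∃ F G : Dist, C * PP F G < OPT F G := by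
  intro C hC
  obtain ⟨n, hn⟩ := exists_nat_gt (6 * C)
  refine ⟨FF n, GG n, ?_⟩
  have h1 := PP_le n
  have h2 := le_OPT n
  have h3 := DD_pos n
  have h4 : C * PP (FF n) (GG n) ≤ C * (DD n * 3) :=
    mul_le_mul_of_nonneg_left h1 (by linarith)
  have h5 : C * (DD n * 3) < DD n * ((n + 1) / 2) := by
    have : C * 3 < (n + 1) / 2 := by linarith
    nlinarith
  linarith

end Pool.Agent.Results.MP_ec2b5b_lc.NoConstant
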